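import Mathlib
import Pool.Agent.H740R3.Biorth

/-!
# Every separable Banach space carries a convex-cyclic operator whose square is not convex-cyclic

Let `(e n, g n)` be a biorthogonal system of `X` with dense span (finite or infinite), let `d n > 0`
decrease strictly and fast to `0` and put `D x = ∑ d n g n (x) e n`. Let `ω = -1` for real scalars
and `ω = i` for complex scalars. Then `S = ω (2 + D)` is convex-cyclic: for every functional
`f ≠ 0` and a vector `x = ∑ c n e n` with all `c n > 0` the numbers `f (S ^ k x)` behave like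
`ω ^ k (2 + d m) ^ k c m f (e m)`, where `m` is the first index with `f (e m) ≠ 0`, so that their
real parts are not bounded above. But for each `x` the numbers `g 0 (S ^ (2 k) x)` lie on the real
line through `g 0 (x)` (complex scalars) or on the same side of `0` as `g 0 (x)` (real scalars).
-/

set_option autoImplicit false

open Filter Topology

namespace Pool.Agent.Results.MP_8292e8_an.EverySeparable

universe u

section Defs

variable {𝕜 : Type} [RCLike 𝕜] {X : Type u} [NormedAddCommGroup X] [NormedSpace 𝕜 X]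

/-- The convex hull of the orbit of `x` under `T`: the set of all finite convex combinations of
the points `T ^ j x`, `j ≥ 0`. -/
def coOrb (T : X →L[𝕜] X) (x : X) : Set X :=
  {y | ∃ (n : ℕ) (a : ℕ → ℝ), (∀ j, 0 ≤ a j) ∧ ∑ j ∈ Finset.range n, a j = 1 ∧
    y = ∑ j ∈ Finset.range n, (a j : 𝕜) • (T ^ j) x}

/-- `T` is convex-cyclic: the convex hull of the orbit of some vector is dense. -/
def ConvexCyclic (T : X →L[𝕜] X) : Prop := ∃ x : X, Dense (coOrb T x)

end Defs

section Lemmas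

variable {𝕜 : Type} [RCLike 𝕜] {X : Type u} [NormedAddCommGroup X] [NormedSpace 𝕜 X]

theorem coOrb_mem (T : X →L[𝕜] X) (x : X) (k : ℕ) : (T ^ k) x ∈ coOrb T x := by
  refine ⟨k + 1, fun j => if j = k then 1 else 0, fun j => ?_, ?_, ?_⟩
  · dsimp only
    split_ifs <;> norm_num
  · simp
  · rw [Finset.sum_eq_single k]
    · simp
    · intro j _ hj
      simp [hj]
    · intro h
      exact absurd (Finset.mem_range.2 (Nat.lt_succ_self k)) h

/-- Hahn-Banach criterion, sufficiency. -/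
theorem dense_of_unbounded (T : X →L[𝕜] X) (x : X)
    (h : ∀ f : StrongDual 𝕜 X, f ≠ 0 → ∀ C : ℝ, ∃ k : ℕ, C < RCLike.re (f ((T ^ k) x))) :
    Dense (coOrb T x) := by
  let _ : NormedSpace ℝ X := NormedSpace.restrictScalars ℝ 𝕜 X
  have hst : IsScalarTower ℝ 𝕜 X := RestrictScalars.isScalarTower ℝ 𝕜 X
  have hcv : Convex ℝ (coOrb T x) := by
    rintro y ⟨n, a, ha, ha1, rfl⟩ z ⟨m, b, hb, hb1, rfl⟩ s t hs ht hst1
    set N := max n m with hN
    refine ⟨N, fun j => s * (if j < n then a j else 0) + t * (if j < m then b j else 0),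
      fun j => ?_, ?_, ?_⟩
    · have h1 : 0 ≤ (if j < n then a j else 0) := by split_ifs <;> [exact ha j; exact le_rfl]
      have h2 : 0 ≤ (if j < m then b j else 0) := by split_ifs <;> [exact hb j; exact le_rfl]
      positivity
    · have h1 : ∑ j ∈ Finset.range N, (if j < n then a j else 0) = 1 := by
        rw [← ha1, ← Finset.sum_filter]
        congr 1
        ext j
        simp only [Finset.mem_filter, Finset.mem_range]
        omega
      have h2 : ∑ j ∈ Finset.range N, (if j < m then b j else 0) = 1 := by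
        rw [← hb1, ← Finset.sum_filter]
        congr 1
        ext j
        simp only [Finset.mem_filter, Finset.mem_range]
        omega
      rw [Finset.sum_add_distrib, ← Finset.mul_sum, ← Finset.mul_sum, h1, h2]
      linarith
    · have h1 : ∑ j ∈ Finset.range n, (a j : 𝕜) • (T ^ j) x =
          ∑ j ∈ Finset.range N, ((if j < n then a j else 0 : ℝ) : 𝕜) • (T ^ j) x := by
        have : ∀ j, ((if j < n then a j else 0 : ℝ) : 𝕜) • (T ^ j) x =
            if j < n then (a j : 𝕜) • (T ^ j) x else 0 := by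
          intro j
          split_ifs <;> simp
        simp_rw [this]
        rw [← Finset.sum_filter]
        congr 1
        ext j
        simp only [Finset.mem_filter, Finset.mem_range]
        omega
      have h2 : ∑ j ∈ Finset.range m, (b j : 𝕜) • (T ^ j) x =
          ∑ j ∈ Finset.range N, ((if j < m then b j else 0 : ℝ) : 𝕜) • (T ^ j) x := by
        have : ∀ j, ((if j < m then b j else 0 : ℝ) : 𝕜) • (T ^ j) x =
            if j < m then (b j : 𝕜) • (T ^ j) x else 0 := by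
          intro j
          split_ifs <;> simp
        simp_rw [this]
        rw [← Finset.sum_filter]
        congr 1
        ext j
        simp only [Finset.mem_filter, Finset.mem_range]
        omega
      have hsm : ∀ (r : ℝ) (v : X), r • v = (r : 𝕜) • v := by
        intro r v
        exact (algebraMap_smul 𝕜 r v).symm
      rw [h1, h2, hsm, hsm, Finset.smul_sum, Finset.smul_sum, ← Finset.sum_add_distrib]
      refine Finset.sum_congr rfl fun j _ => ?_
      rw [smul_smul, smul_smul, ← add_smul]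
      congr 1
      push_cast
      ring
  rw [dense_iff_closure_eq, Set.eq_univ_iff_forall]
  intro y
  by_contra hy
  obtain ⟨f, c, h1, h2⟩ := RCLike.geometric_hahn_banach_closed_point (𝕜 := 𝕜) hcv.closure
    isClosed_closure hy
  have hf : f ≠ 0 := by
    rintro rfl
    have h3 := h1 _ (subset_closure (coOrb_mem T x 0))
    simp at h3 h2
    linarith
  obtain ⟨k, hk⟩ := h f hf c
  exact absurd (h1 _ (subset_closure (coOrb_mem T x k))) (not_lt.2 hk.le)

/-- Hahn-Banach criterion, necessity. -/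
theorem not_dense_of_bounded (T : X →L[𝕜] X) (x : X) (f : StrongDual 𝕜 X) (hf : f ≠ 0) (C : ℝ)
    (h : ∀ k : ℕ, RCLike.re (f ((T ^ k) x)) ≤ C) : ¬ Dense (coOrb T x) := by
  intro hd
  have h1 : ∀ y ∈ coOrb T x, RCLike.re (f y) ≤ C := by
    rintro y ⟨n, a, ha, ha1, rfl⟩
    rw [map_sum, map_sum]
    calc ∑ j ∈ Finset.range n, RCLike.re (f ((a j : 𝕜) • (T ^ j) x))
        = ∑ j ∈ Finset.range n, a j * RCLike.re (f ((T ^ j) x)) := by
          refine Finset.sum_congr rfl fun j _ => ?_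
          rw [map_smul, smul_eq_mul, RCLike.re_ofReal_mul]
      _ ≤ ∑ j ∈ Finset.range n, a j * C :=
          Finset.sum_le_sum fun j _ => mul_le_mul_of_nonneg_left (h j) (ha j)
      _ = C := by rw [← Finset.sum_mul, ha1, one_mul]
  have h2 : ∀ y : X, RCLike.re (f y) ≤ C := by
    intro y
    have hcl : IsClosed {y : X | RCLike.re (f y) ≤ C} :=
      isClosed_le (RCLike.continuous_re.comp f.continuous) continuous_const
    exact hcl.closure_subset_iff.2 h1 (hd y)
  obtain ⟨y, hy⟩ : ∃ y, f y ≠ 0 := by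
    by_contra hcon
    push Not at hcon
    exact hf (ContinuousLinearMap.ext hcon)
  have h3 := h2 ((((C + 1 : ℝ) : 𝕜) * (f y)⁻¹) • y)
  rw [map_smul, smul_eq_mul, mul_assoc, inv_mul_cancel₀ hy, mul_one, RCLike.ofReal_re] at h3
  linarith

end Lemmas

/-- `ω = -1` or `ω = i` -/
theorem exists_omega (𝕜 : Type) [RCLike 𝕜] : ∃ ω : 𝕜, ω ^ 4 = 1 ∧ ‖ω‖ = 1 ∧
    (∀ k : ℕ, RCLike.re (ω ^ (2 * k + 1)) ≤ 0) ∧
    ∀ a : 𝕜, a ≠ 0 → ∃ r : ℕ, 0 < RCLike.re (ω ^ r * a) := by
  rcases RCLike.I_mul_I_ax (K := 𝕜) with hI | hI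
  · refine ⟨-1, by norm_num, by simp, fun k => ?_, fun a ha => ?_⟩
    · rw [Odd.neg_one_pow ⟨k, rfl⟩]
      simp
    · have h1 : a = ((RCLike.re a : ℝ) : 𝕜) := by
        have := RCLike.re_add_im a
        rw [hI, mul_zero, add_zero] at this
        exact this.symm
      have h2 : RCLike.re a ≠ 0 := by
        intro h
        rw [h] at h1
        exact ha (by simpa using h1)
      rcases lt_or_gt_of_ne h2 with h | h
      · refine ⟨1, ?_⟩
        simp only [pow_one, neg_mul, one_mul, map_neg]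
        linarith
      · exact ⟨0, by simpa using h⟩
  · have hI2 : (RCLike.I : 𝕜) ^ 2 = -1 := by rw [sq]; exact hI
    have hre : ∀ a : 𝕜, RCLike.re (RCLike.I * a) = -RCLike.im a := by
      intro a
      rw [RCLike.mul_re, RCLike.I_re, zero_mul, zero_sub, RCLike.I_im']
    have h0 : ∀ a : 𝕜, RCLike.im a ≠ 0 → ∃ r : ℕ, 0 < RCLike.re (RCLike.I ^ r * a) := by
      intro a ha
      rcases lt_or_gt_of_ne ha with h | h
      · refine ⟨1, ?_⟩
        rw [pow_one, hre]
        linarith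
      · refine ⟨3, ?_⟩
        have : (RCLike.I : 𝕜) ^ 3 * a = -(RCLike.I * a) := by
          rw [pow_succ, hI2]; ring
        rw [this, map_neg, hre]
        linarith
    refine ⟨RCLike.I, ?_, ?_, fun k => ?_, fun a ha => ?_⟩
    · calc (RCLike.I : 𝕜) ^ 4 = ((RCLike.I : 𝕜) ^ 2) ^ 2 := by ring
        _ = 1 := by rw [hI2]; norm_num
    · have h1 : ‖(RCLike.I : 𝕜)‖ ^ 2 = 1 := by rw [← norm_pow, hI2]; simp
      have h2 : (‖(RCLike.I : 𝕜)‖ - 1) * (‖(RCLike.I : 𝕜)‖ + 1) = 0 := by linarith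
      rcases mul_eq_zero.1 h2 with h | h
      · linarith
      · have := norm_nonneg (RCLike.I : 𝕜)
        linarith
    · rw [pow_succ, pow_mul, hI2]
      rcases neg_one_pow_eq_or 𝕜 k with h | h <;> simp [h]
    · by_cases h1 : RCLike.im a = 0
      · have h2 : RCLike.re a ≠ 0 := by
          intro h
          exact ha (RCLike.ext (by simpa using h) (by simpa using h1))
        rcases lt_or_gt_of_ne h2 with h | h
        · refine ⟨2, ?_⟩
          rw [hI2, neg_mul, one_mul, map_neg]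
          linarith
        · exact ⟨0, by simpa using h⟩
      · exact h0 a h1

section Main

variable {𝕜 : Type} [RCLike 𝕜] {X : Type u} [NormedAddCommGroup X] [NormedSpace 𝕜 X]

/-- the weights -/
noncomputable def wt (e : ℕ → X) (g : ℕ → StrongDual 𝕜 X) (n : ℕ) : ℝ :=
  (1 / 2) ^ n / (1 + ∑ k ∈ Finset.range (n + 1), ‖g k‖ * ‖e k‖)

theorem wt_den (e : ℕ → X) (g : ℕ → StrongDual 𝕜 X) (n : ℕ) :
    1 ≤ 1 + ∑ k ∈ Finset.range (n + 1), ‖g k‖ * ‖e k‖ := by
  have : 0 ≤ ∑ k ∈ Finset.range (n + 1), ‖g k‖ * ‖e k‖ :=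
    Finset.sum_nonneg fun k _ => mul_nonneg (norm_nonneg _) (norm_nonneg _)
  linarith

theorem wt_pos (e : ℕ → X) (g : ℕ → StrongDual 𝕜 X) (n : ℕ) : 0 < wt e g n := by
  have := wt_den e g n
  unfold wt
  positivity

theorem wt_anti (e : ℕ → X) (g : ℕ → StrongDual 𝕜 X) : StrictAnti (wt e g) := by
  refine strictAnti_nat_of_succ_lt fun n => ?_
  have h1 := wt_den e g n
  have h2 := wt_den e g (n + 1)
  have h3 : 1 + ∑ k ∈ Finset.range (n + 1), ‖g k‖ * ‖e k‖ ≤
      1 + ∑ k ∈ Finset.range (n + 1 + 1), ‖g k‖ * ‖e k‖ := by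
    rw [Finset.sum_range_succ _ (n + 1)]
    have : 0 ≤ ‖g (n + 1)‖ * ‖e (n + 1)‖ := by positivity
    linarith
  unfold wt
  rw [div_lt_div_iff₀ (by linarith) (by linarith)]
  have h4 : (0:ℝ) < (1 / 2) ^ n := by positivity
  calc (1 / 2 : ℝ) ^ (n + 1) * (1 + ∑ k ∈ Finset.range (n + 1), ‖g k‖ * ‖e k‖)
      ≤ (1 / 2 : ℝ) ^ (n + 1) * (1 + ∑ k ∈ Finset.range (n + 1 + 1), ‖g k‖ * ‖e k‖) := by
        gcongr
    _ < (1 / 2 : ℝ) ^ n * (1 + ∑ k ∈ Finset.range (n + 1 + 1), ‖g k‖ * ‖e k‖) := by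
        apply mul_lt_mul_of_pos_right _ (by linarith)
        rw [pow_succ]
        linarith

theorem wt_bound (e : ℕ → X) (g : ℕ → StrongDual 𝕜 X) (n : ℕ) :
    wt e g n * (‖g n‖ * ‖e n‖) ≤ (1 / 2) ^ n := by
  have h1 := wt_den e g n
  have h2 : ‖g n‖ * ‖e n‖ ≤ 1 + ∑ k ∈ Finset.range (n + 1), ‖g k‖ * ‖e k‖ := by
    have := Finset.single_le_sum (f := fun k => ‖g k‖ * ‖e k‖)
      (fun k _ => mul_nonneg (norm_nonneg (g k)) (norm_nonneg (e k)))
      (Finset.mem_range.2 (Nat.lt_succ_self n))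
    linarith
  unfold wt
  rw [div_mul_eq_mul_div, div_le_iff₀ (by linarith)]
  exact mul_le_mul_of_nonneg_left h2 (by positivity)

/-- the diagonal operator -/
noncomputable def DD (e : ℕ → X) (g : ℕ → StrongDual 𝕜 X) : X →L[𝕜] X :=
  ∑' n, ((wt e g n : ℝ) : 𝕜) • (g n).smulRight (e n)

theorem DD_summable [CompleteSpace X] (e : ℕ → X) (g : ℕ → StrongDual 𝕜 X) :
    Summable fun n => ((wt e g n : ℝ) : 𝕜) • (g n).smulRight (e n) := by
  refine Summable.of_norm_bounded (g := fun n : ℕ => (1 / 2 : ℝ) ^ n)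
    (summable_geometric_of_lt_one (by norm_num) (by norm_num)) fun n => ?_
  rw [norm_smul, ContinuousLinearMap.norm_smulRight_apply, RCLike.norm_ofReal,
    abs_of_pos (wt_pos e g n)]
  exact wt_bound e g n

theorem DD_hasSum [CompleteSpace X] (e : ℕ → X) (g : ℕ → StrongDual 𝕜 X) (x : X) :
    HasSum (fun n => (((wt e g n : ℝ) : 𝕜) * g n x) • e n) (DD e g x) := by
  have h := (DD_summable e g).hasSum
  have h2 := (ContinuousLinearMap.apply 𝕜 X x).hasSum h
  have h3 : (fun n => (((wt e g n : ℝ) : 𝕜) * g n x) • e n) = fun n =>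
      (ContinuousLinearMap.apply 𝕜 X x) (((wt e g n : ℝ) : 𝕜) • (g n).smulRight (e n)) := by
    ext n
    simp [mul_smul]
  rw [h3]
  exact h2

variable {e : ℕ → X} {g : ℕ → StrongDual 𝕜 X}

theorem DD_e [CompleteSpace X] (h1 : ∀ i j, i ≠ j → g i (e j) = 0)
    (h2 : ∀ i, g i (e i) = 1 ∨ (e i = 0 ∧ g i = 0)) (m : ℕ) :
    DD e g (e m) = ((wt e g m : ℝ) : 𝕜) • e m := by
  have h := DD_hasSum e g (e m)
  have h3 : HasSum (fun n => (((wt e g n : ℝ) : 𝕜) * g n (e m)) • e n)
      ((((wt e g m : ℝ) : 𝕜) * g m (e m)) • e m) :=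
    hasSum_single m fun n hn => by rw [h1 n m hn, mul_zero, zero_smul]
  rw [h.unique h3]
  rcases h2 m with h | ⟨h, -⟩
  · rw [h, mul_one]
  · rw [h, smul_zero, smul_zero]

theorem g_DD [CompleteSpace X] (h1 : ∀ i j, i ≠ j → g i (e j) = 0)
    (h2 : ∀ i, g i (e i) = 1 ∨ (e i = 0 ∧ g i = 0)) (m : ℕ) (x : X) :
    g m (DD e g x) = ((wt e g m : ℝ) : 𝕜) * g m x := by
  have h := (g m).hasSum (DD_hasSum e g x)
  have h3 : HasSum (fun n => g m ((((wt e g n : ℝ) : 𝕜) * g n x) • e n))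
      (g m ((((wt e g m : ℝ) : 𝕜) * g m x) • e m)) :=
    hasSum_single m fun n hn => by rw [map_smul, h1 m n hn.symm, smul_zero]
  have h4 := h.unique h3
  rw [h4, map_smul, smul_eq_mul]
  rcases h2 m with h | ⟨-, h⟩
  · rw [h, mul_one]
  · simp [h]

/-- the operator -/
noncomputable def SS (ω : 𝕜) (e : ℕ → X) (g : ℕ → StrongDual 𝕜 X) : X →L[𝕜] X :=
  ω • ((2 : 𝕜) • ContinuousLinearMap.id 𝕜 X + DD e g)

theorem SS_pow_e [CompleteSpace X] (h1 : ∀ i j, i ≠ j → g i (e j) = 0)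
    (h2 : ∀ i, g i (e i) = 1 ∨ (e i = 0 ∧ g i = 0)) (ω : 𝕜) (m k : ℕ) :
    ((SS ω e g) ^ k) (e m) = (ω ^ k * (((2 + wt e g m) ^ k : ℝ) : 𝕜)) • e m := by
  induction k with
  | zero => simp
  | succ k ih =>
    rw [pow_succ', ContinuousLinearMap.mul_apply, ih, map_smul]
    have : SS ω e g (e m) = (ω * ((2 + wt e g m : ℝ) : 𝕜)) • e m := by
      simp only [SS, ContinuousLinearMap.smul_apply, ContinuousLinearMap.add_apply,
        ContinuousLinearMap.id_apply, DD_e h1 h2]
      rw [← add_smul, smul_smul]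
      push_cast
      rfl
    rw [this, smul_smul]
    congr 1
    push_cast
    ring

theorem g_SS_pow [CompleteSpace X] (h1 : ∀ i j, i ≠ j → g i (e j) = 0)
    (h2 : ∀ i, g i (e i) = 1 ∨ (e i = 0 ∧ g i = 0)) (ω : 𝕜) (m k : ℕ) (x : X) :
    g m (((SS ω e g) ^ k) x) = ω ^ k * (((2 + wt e g m) ^ k : ℝ) : 𝕜) * g m x := by
  induction k generalizing x with
  | zero => simp
  | succ k ih =>
    rw [pow_succ, ContinuousLinearMap.mul_apply, ih]
    have : g m (SS ω e g x) = (ω * ((2 + wt e g m : ℝ) : 𝕜)) * g m x := by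
      simp only [SS, ContinuousLinearMap.smul_apply, ContinuousLinearMap.add_apply,
        ContinuousLinearMap.id_apply, map_smul, map_add, g_DD h1 h2, smul_eq_mul]
      push_cast
      ring
    rw [this]
    push_cast
    ring

/-- the vector -/
noncomputable def cf (e : ℕ → X) (n : ℕ) : ℝ := (1 / 2) ^ n / (1 + ‖e n‖)

theorem cf_pos (e : ℕ → X) (n : ℕ) : 0 < cf e n := by
  unfold cf
  positivity

theorem cf_bound (e : ℕ → X) (n : ℕ) : cf e n * ‖e n‖ ≤ (1 / 2) ^ n := by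
  unfold cf
  rw [div_mul_eq_mul_div, div_le_iff₀ (by positivity)]
  have : ‖e n‖ ≤ 1 + ‖e n‖ := by linarith
  exact mul_le_mul_of_nonneg_left this (by positivity)

theorem cf_summable [CompleteSpace X] (e : ℕ → X) :
    Summable fun n => ((cf e n : ℝ) : 𝕜) • e n := by
  refine Summable.of_norm_bounded (g := fun n : ℕ => (1 / 2 : ℝ) ^ n)
    (summable_geometric_of_lt_one (by norm_num) (by norm_num)) fun n => ?_
  rw [norm_smul, RCLike.norm_ofReal, abs_of_pos (cf_pos e n)]
  exact cf_bound e n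

theorem f_SS_hasSum [CompleteSpace X] (h1 : ∀ i j, i ≠ j → g i (e j) = 0)
    (h2 : ∀ i, g i (e i) = 1 ∨ (e i = 0 ∧ g i = 0)) (ω : 𝕜) (k : ℕ) (f : StrongDual 𝕜 X) :
    HasSum (fun n => ((((2 + wt e g n) ^ k * cf e n : ℝ) : 𝕜) * (ω ^ k * f (e n))))
      (f (((SS ω e g) ^ k) (∑' n, ((cf e n : ℝ) : 𝕜) • e n))) := by
  have h := (f.comp ((SS ω e g) ^ k)).hasSum (cf_summable (𝕜 := 𝕜) e).hasSum
  have h3 : (fun n => ((((2 + wt e g n) ^ k * cf e n : ℝ) : 𝕜) * (ω ^ k * f (e n)))) =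
      fun n => (f.comp ((SS ω e g) ^ k)) (((cf e n : ℝ) : 𝕜) • e n) := by
    ext n
    rw [ContinuousLinearMap.comp_apply, map_smul, SS_pow_e h1 h2, map_smul, map_smul, smul_eq_mul,
      smul_eq_mul]
    push_cast
    ring
  rw [h3]
  exact h

/-- the main estimate -/
theorem main_estimate [CompleteSpace X] (h1 : ∀ i j, i ≠ j → g i (e j) = 0)
    (h2 : ∀ i, g i (e i) = 1 ∨ (e i = 0 ∧ g i = 0)) (ω : 𝕜) (hω : ‖ω‖ = 1) (k : ℕ)
    (f : StrongDual 𝕜 X) (m : ℕ) (hm : ∀ n < m, f (e n) = 0) :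
    ‖f (((SS ω e g) ^ k) (∑' n, ((cf e n : ℝ) : 𝕜) • e n)) -
      (((2 + wt e g m) ^ k * cf e m : ℝ) : 𝕜) * (ω ^ k * f (e m))‖ ≤
      (2 + wt e g (m + 1)) ^ k * (2 * ‖f‖) := by
  have h := (f_SS_hasSum h1 h2 ω k f).sub
    (hasSum_single (f := fun n => if n = m then
      (((2 + wt e g n) ^ k * cf e n : ℝ) : 𝕜) * (ω ^ k * f (e n)) else 0) m
      (fun n hn => by simp [hn]))
  simp only [if_true] at h
  have hgeo : HasSum (fun n : ℕ => (2 + wt e g (m + 1)) ^ k * ‖f‖ * (1 / 2 : ℝ) ^ n)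
      ((2 + wt e g (m + 1)) ^ k * ‖f‖ * 2) := by
    have := hasSum_geometric_of_lt_one (r := (1 / 2 : ℝ)) (by norm_num) (by norm_num)
    have := this.mul_left ((2 + wt e g (m + 1)) ^ k * ‖f‖)
    norm_num at this ⊢
    exact this
  have hw := wt_pos e g (m + 1)
  have hle := tsum_of_norm_bounded (f := fun n =>
    (((2 + wt e g n) ^ k * cf e n : ℝ) : 𝕜) * (ω ^ k * f (e n)) - if n = m then
      (((2 + wt e g n) ^ k * cf e n : ℝ) : 𝕜) * (ω ^ k * f (e n)) else 0) hgeo (fun n => by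
    by_cases hnm : n = m
    · rw [if_pos hnm, sub_self, norm_zero]
      positivity
    · rw [if_neg hnm, sub_zero]
      by_cases hlt : n < m
      · rw [hm n hlt, mul_zero, mul_zero, norm_zero]
        positivity
      · have hge : m + 1 ≤ n := by omega
        have hwn := wt_pos e g n
        have hwle : wt e g n ≤ wt e g (m + 1) := (wt_anti e g).antitone hge
        rw [norm_mul, norm_mul, norm_pow, hω, one_pow, one_mul, RCLike.norm_ofReal, abs_mul,
          abs_of_pos (by positivity : 0 < (2 + wt e g n) ^ k), abs_of_pos (cf_pos e n)]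
        calc (2 + wt e g n) ^ k * cf e n * ‖f (e n)‖
            ≤ (2 + wt e g (m + 1)) ^ k * cf e n * (‖f‖ * ‖e n‖) := by
              have := (cf_pos e n).le
              have := f.le_opNorm (e n)
              gcongr
          _ = (2 + wt e g (m + 1)) ^ k * ‖f‖ * (cf e n * ‖e n‖) := by ring
          _ ≤ (2 + wt e g (m + 1)) ^ k * ‖f‖ * (1 / 2) ^ n :=
              mul_le_mul_of_nonneg_left (cf_bound e n) (by positivity))
  rw [h.tsum_eq] at hle
  linarith

theorem exists_first (hd : Dense (Submodule.span 𝕜 (Set.range e) : Set X)) (f : StrongDual 𝕜 X)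
    (hf : f ≠ 0) : ∃ m, f (e m) ≠ 0 ∧ ∀ n < m, f (e n) = 0 := by
  classical
  have hex : ∃ m, f (e m) ≠ 0 := by
    by_contra hcon
    push Not at hcon
    apply hf
    have h1 : ∀ x ∈ Submodule.span 𝕜 (Set.range e), f x = 0 := by
      intro x hx
      have : Submodule.span 𝕜 (Set.range e) ≤ LinearMap.ker (f : X →ₗ[𝕜] 𝕜) := by
        rw [Submodule.span_le]
        rintro _ ⟨n, rfl⟩
        exact hcon n
      exact this hx
    ext x
    have hcl : IsClosed {y : X | f y = 0} := isClosed_eq f.continuous continuous_const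
    exact hcl.closure_subset_iff.2 h1 (hd x)
  exact ⟨Nat.find hex, Nat.find_spec hex, fun n hn => by
    have := Nat.find_min hex hn
    push Not at this
    exact this⟩

theorem SS_convexCyclic [CompleteSpace X] (h1 : ∀ i j, i ≠ j → g i (e j) = 0)
    (h2 : ∀ i, g i (e i) = 1 ∨ (e i = 0 ∧ g i = 0))
    (hd : Dense (Submodule.span 𝕜 (Set.range e) : Set X)) (ω : 𝕜) (hω4 : ω ^ 4 = 1)
    (hω : ‖ω‖ = 1) (hω2 : ∀ a : 𝕜, a ≠ 0 → ∃ r : ℕ, 0 < RCLike.re (ω ^ r * a)) :
    ∀ q : ℕ, Odd q → ConvexCyclic ((SS ω e g) ^ q) := by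
  intro q hq
  refine ⟨∑' n, ((cf e n : ℝ) : 𝕜) • e n, dense_of_unbounded _ _ fun f hf C => ?_⟩
  obtain ⟨m, hm, hm2⟩ := exists_first hd f hf
  obtain ⟨r, hr⟩ := hω2 (f (e m)) hm
  set α : ℝ := RCLike.re (ω ^ r * f (e m)) with hα
  have hc := cf_pos e m
  have hw := wt_pos e g m
  have hw1 := wt_pos e g (m + 1)
  have hlt : wt e g (m + 1) < wt e g m := wt_anti e g (Nat.lt_succ_self m)
  have hkey : ∀ j : ℕ, (2 + wt e g m) ^ (4 * j + r) * cf e m * α -
      (2 + wt e g (m + 1)) ^ (4 * j + r) * (2 * ‖f‖) ≤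
      RCLike.re (f (((SS ω e g) ^ (4 * j + r)) (∑' n, ((cf e n : ℝ) : 𝕜) • e n))) := by
    intro j
    have h3 := main_estimate h1 h2 ω hω (4 * j + r) f m hm2
    have h4 := (RCLike.abs_re_le_norm _).trans h3
    rw [abs_le] at h4
    have h5 : ω ^ (4 * j + r) = ω ^ r := by rw [pow_add, pow_mul, hω4, one_pow, one_mul]
    rw [h5, map_sub, RCLike.re_ofReal_mul, ← hα] at h4
    linarith [h4.1]
  have hT : Tendsto (fun j : ℕ => (2 + wt e g m) ^ (4 * j + r) * (cf e m * α -
      ((2 + wt e g (m + 1)) / (2 + wt e g m)) ^ (4 * j + r) * (2 * ‖f‖))) atTop atTop := by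
    have hid : Tendsto (fun j : ℕ => 4 * j + r) atTop atTop :=
      tendsto_atTop_mono (fun j => by simp only [id]; omega) tendsto_id
    have ha : Tendsto (fun j : ℕ => (2 + wt e g m) ^ (4 * j + r)) atTop atTop :=
      (tendsto_pow_atTop_atTop_of_one_lt (by linarith)).comp hid
    have hb : Tendsto (fun j : ℕ => ((2 + wt e g (m + 1)) / (2 + wt e g m)) ^ (4 * j + r))
        atTop (𝓝 0) :=
      (tendsto_pow_atTop_nhds_zero_of_lt_one (by positivity)
        (by rw [div_lt_one (by positivity)]; linarith)).comp hid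
    have hb2 : Tendsto (fun j : ℕ => cf e m * α -
        ((2 + wt e g (m + 1)) / (2 + wt e g m)) ^ (4 * j + r) * (2 * ‖f‖)) atTop
        (𝓝 (cf e m * α - 0 * (2 * ‖f‖))) := tendsto_const_nhds.sub (hb.mul_const _)
    rw [zero_mul, sub_zero] at hb2
    exact ha.atTop_mul_pos (mul_pos hc hr) hb2
  have hsub : ∃ᶠ j : ℕ in atTop, ∃ t : ℕ, 4 * j + r = q * t := by
    rw [frequently_atTop]
    intro a
    obtain ⟨l, rfl⟩ := hq
    refine ⟨l * (l + 1) * r + (2 * l + 1) * a, ?_, (2 * l + 1) * r + 4 * a, by ring⟩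
    have h3 : a ≤ (2 * l + 1) * a := Nat.le_mul_of_pos_left a (by omega)
    exact h3.trans (Nat.le_add_left _ _)
  obtain ⟨j, hj, t, ht⟩ := ((hT.eventually_gt_atTop C).and_frequently hsub).exists
  refine ⟨t, ?_⟩
  rw [← pow_mul, ← ht]
  refine hj.trans_le (le_trans (le_of_eq ?_) (hkey j))
  rw [div_pow]
  field_simp

theorem SS_sq_not [CompleteSpace X] [Nontrivial X] (h1 : ∀ i j, i ≠ j → g i (e j) = 0)
    (h2 : ∀ i, g i (e i) = 1 ∨ (e i = 0 ∧ g i = 0))
    (hd : Dense (Submodule.span 𝕜 (Set.range e) : Set X)) (ω : 𝕜) (hω0 : ω ≠ 0)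
    (hω : ∀ k : ℕ, RCLike.re (ω ^ (2 * k + 1)) ≤ 0) (q : ℕ) :
    ¬ ConvexCyclic ((SS ω e g) ^ (2 * q)) := by
  rintro ⟨x, hx⟩
  obtain ⟨y, hy⟩ := exists_ne (0 : X)
  obtain ⟨F, hF⟩ := SeparatingDual.exists_eq_one (R := 𝕜) hy
  have hF0 : F ≠ 0 := by
    rintro rfl
    simp at hF
  obtain ⟨m, hm, -⟩ := exists_first hd F hF0
  have hem : e m ≠ 0 := by
    intro h
    rw [h, map_zero] at hm
    exact hm rfl
  have hg1 : g m (e m) = 1 := by
    rcases h2 m with h | ⟨h, -⟩
    · exact h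
    · exact absurd h hem
  have hg0 : g m ≠ 0 := by
    intro h
    rw [h] at hg1
    simp at hg1
  by_cases hgx : g m x = 0
  · refine not_dense_of_bounded _ x (g m) hg0 0 (fun k => ?_) hx
    rw [← pow_mul, g_SS_pow h1 h2, hgx, mul_zero, map_zero]
  · have hf0 : (ω * (starRingEnd 𝕜) (g m x)) • g m ≠ 0 := by
      refine smul_ne_zero (mul_ne_zero hω0 ?_) hg0
      simpa using hgx
    refine not_dense_of_bounded _ x _ hf0 0 (fun k => ?_) hx
    rw [← pow_mul, ContinuousLinearMap.smul_apply, smul_eq_mul, g_SS_pow h1 h2, mul_assoc 2 q k]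
    have : ω * (starRingEnd 𝕜) (g m x) * (ω ^ (2 * (q * k)) *
        (((2 + wt e g m) ^ (2 * (q * k)) : ℝ) : 𝕜) * g m x) =
        (((2 + wt e g m) ^ (2 * (q * k)) * ‖g m x‖ ^ 2 : ℝ) : 𝕜) * ω ^ (2 * (q * k) + 1) := by
      have h3 : (starRingEnd 𝕜) (g m x) * g m x = ((‖g m x‖ ^ 2 : ℝ) : 𝕜) := by
        rw [RCLike.conj_mul]
        push_cast
        rfl
      calc _ = ω ^ (2 * (q * k) + 1) * (((2 + wt e g m) ^ (2 * (q * k)) : ℝ) : 𝕜) *
          ((starRingEnd 𝕜) (g m x) * g m x) := by ring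
        _ = _ := by rw [h3]; push_cast; ring
    rw [this, RCLike.re_ofReal_mul]
    have hw := wt_pos e g m
    exact mul_nonpos_of_nonneg_of_nonpos (by positivity) (hω (q * k))

end Main

/-- **MP_8292e8_an, Q1.** Every nonzero separable Banach space over `ℝ` or `ℂ`, of finite or
infinite dimension, carries a convex-cyclic operator `S` whose square is not convex-cyclic; more
precisely, the convex-cyclic powers of `S` are exactly the odd ones. -/
theorem result (𝕜 : Type) [RCLike 𝕜] (X : Type u) [NormedAddCommGroup X] [NormedSpace 𝕜 X]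
    [CompleteSpace X] [TopologicalSpace.SeparableSpace X] [Nontrivial X] :
    ∃ S : X →L[𝕜] X, ConvexCyclic S ∧ ¬ ConvexCyclic (S ^ 2) ∧
      ∀ k : ℕ, ConvexCyclic (S ^ k) ↔ Odd k := by
  obtain ⟨e, g, h1, h2, hd⟩ := Pool.Agent.H740R3.Biorth.exists_biorth 𝕜 X
  obtain ⟨ω, hω4, hω, hω1, hω2⟩ := exists_omega 𝕜
  have hω0 : ω ≠ 0 := by
    rintro rfl
    simp at hω
  have h3 := SS_convexCyclic h1 h2 hd ω hω4 hω hω2
  have h4 := SS_sq_not h1 h2 hd ω hω0 hω1
  refine ⟨SS ω e g, by simpa using h3 1 odd_one, h4 1, fun k => ⟨fun hk => ?_, h3 k⟩⟩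
  by_contra hodd
  rw [Nat.not_odd_iff_even, even_iff_exists_two_mul] at hodd
  obtain ⟨q, rfl⟩ := hodd
  exact h4 q hk

end Pool.Agent.Results.MP_8292e8_an.EverySeparable
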